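import Pool.Agent.Q184.BG.Main

/-!
# MP_b2dc7d_gt, Q1

There is a group whose finitary ballean is pseudobounded, with a slowly oscillating function which
is not constant at infinity.
-/

set_option autoImplicit false

namespace Pool.Agent.Results.MP_b2dc7d_gt.PseudoboundedNotConstant

open Set Topology
open scoped Pointwise

/-- The entourage `E_F` of the finitary ballean of `G`. -/
def entourage {G : Type} [Group G] (F : Set G) : Set (G × G) :=
  {p | p.2 ∈ {p.1} ∪ (fun g => g * p.1) '' F}

/-- `E_F[x] = {y : (x, y) ∈ E_F}`. -/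
def ball {G : Type} [Group G] (F : Set G) (x : G) : Set G :=
  {y | (x, y) ∈ entourage F}

/-- Slowly oscillating functions: for every `ε > 0` and every finite `F` there is a finite `B` with
`diam φ(E_F[x]) < ε` for all `x ∈ G ∖ B`. -/
def SlowlyOscillating {G : Type} [Group G] (φ : G → ℝ) : Prop :=
  ∀ ε : ℝ, 0 < ε → ∀ F : Set G, F.Finite → ∃ B : Set G, B.Finite ∧
    ∀ x ∈ univ \ B, Metric.diam (φ '' ball F x) < ε

/-- The finitary ballean of `G` is pseudobounded: every slowly oscillating function is bounded off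
a finite set. -/
def Pseudobounded (G : Type) [Group G] : Prop :=
  ∀ φ : G → ℝ, SlowlyOscillating φ → ∃ B : Set G, B.Finite ∧
    Bornology.IsBounded (φ '' (univ \ B))

/-- `φ` is constant at infinity: there is `c` such that for every neighbourhood `U` of `c` the set
`G ∖ φ⁻¹(U)` is finite. -/
def ConstantAtInfinity {G : Type} (φ : G → ℝ) : Prop :=
  ∃ c : ℝ, ∀ U ∈ 𝓝 c, (univ \ φ ⁻¹' U).Finite

theorem result :
    ∃ (G : Type) (_ : Group G), Pseudobounded G ∧
      ∃ φ : G → ℝ, SlowlyOscillating φ ∧ ¬ ConstantAtInfinity φ := by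
  obtain ⟨G, hG, f, hd, hso, h1, h0⟩ := Pool.Agent.Q184.BG.core
  refine ⟨G, hG, ?_, f, ?_, ?_⟩
  · intro ψ hψ
    refine ⟨∅, finite_empty, ?_⟩
    let X : ℕ → Set G := fun n => {g | ∀ y, |ψ (g * y) - ψ y| ≤ 2 ^ n}
    have hX : ∀ g, ∃ n, g ∈ X n := by
      intro g
      obtain ⟨B, hB, hB'⟩ := hψ 1 one_pos {g} (finite_singleton g)
      have h2 : ∀ y, y ∉ B → |ψ (g * y) - ψ y| ≤ 1 := by
        intro y hy
        have h3 := hB' y ⟨mem_univ y, hy⟩
        have hfb : (ball {g} y).Finite :=
          ((finite_singleton y).union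
            ((finite_singleton g).image (fun g => g * y))).subset (fun z hz => hz)
        have hfin : (ψ '' ball {g} y).Finite := hfb.image ψ
        have h4 := Metric.dist_le_diam_of_mem hfin.isBounded
          (mem_image_of_mem ψ (show g * y ∈ ball {g} y from Or.inr ⟨g, rfl, rfl⟩))
          (mem_image_of_mem ψ (show y ∈ ball {g} y from Or.inl rfl))
        rw [Real.dist_eq] at h4
        exact (h4.trans h3.le)
      obtain ⟨M, hM⟩ := (hB.image (fun y => |ψ (g * y) - ψ y|)).bddAbove
      obtain ⟨n, hn⟩ := pow_unbounded_of_one_lt (max M 1) (one_lt_two : (1 : ℝ) < 2)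
      refine ⟨n, fun y => ?_⟩
      by_cases hy : y ∈ B
      · exact (hM (mem_image_of_mem _ hy)).trans ((le_max_left _ _).trans hn.le)
      · exact (h2 y hy).trans ((le_max_right _ _).trans hn.le)
    obtain ⟨n, hn⟩ := Pool.Agent.Q184.BG.exhaust (X := X)
      (fun m n hmn g hg y => (hg y).trans (pow_le_pow_right₀ one_le_two hmn))
      (fun n g hg y => by
        have h2 := hg (g⁻¹ * y)
        rw [mul_inv_cancel_left, abs_sub_comm] at h2
        exact h2)
      (fun n g hg h hh y => by
        have h2 := hg (h * y)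
        have h3 := hh y
        rw [mul_assoc, pow_succ]
        have h4 := abs_sub_le (ψ (g * (h * y))) (ψ (h * y)) (ψ y)
        linarith) hd hX
    have h2 : ∀ g, |ψ g - ψ 1| ≤ 2 ^ n := by
      intro g
      have h3 : g ∈ X n := by rw [hn]; exact mem_univ g
      have h4 := h3 1
      rwa [mul_one] at h4
    refine (Metric.isBounded_closedBall (x := ψ 1) (r := 2 ^ n)).subset ?_
    rintro _ ⟨g, -, rfl⟩
    rw [Metric.mem_closedBall, Real.dist_eq]
    exact h2 g
  · intro ε hε F hF
    refine ⟨⋃ s ∈ F, {g | ε / 3 ≤ |f (s * g) - f g|},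
      hF.biUnion (fun s _ => hso s (ε / 3) (by linarith)), ?_⟩
    intro x hx
    have hx' : ∀ s ∈ F, |f (s * x) - f x| < ε / 3 := by
      intro s hs
      by_contra hc
      exact hx.2 (mem_biUnion hs (not_lt.1 hc))
    have hz : ∀ z ∈ f '' ball F x, |z - f x| ≤ ε / 3 := by
      rintro _ ⟨y, hy, rfl⟩
      rcases hy with hy | ⟨s, hs, hy⟩
      · have hy' : y = x := hy
        rw [hy', sub_self, abs_zero]
        linarith
      · have hy' : s * x = y := hy
        rw [← hy']
        exact (hx' s hs).le
    have : Metric.diam (f '' ball F x) ≤ 2 * (ε / 3) := by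
      refine Metric.diam_le_of_forall_dist_le (by linarith) ?_
      intro a ha b hb
      have h2 := abs_le.1 (hz a ha)
      have h3 := abs_le.1 (hz b hb)
      rw [Real.dist_eq, abs_le]
      constructor <;> linarith
    linarith
  · rintro ⟨c, hc⟩
    by_cases hc0 : c = 0
    · have h2 := hc ({1}ᶜ) (isOpen_compl_singleton.mem_nhds (by
        rw [hc0]; simp))
      refine h1 (h2.subset ?_)
      intro g hg
      refine ⟨mem_univ g, ?_⟩
      intro h3
      exact h3 hg
    · have h2 := hc ({0}ᶜ) (isOpen_compl_singleton.mem_nhds (by simpa using hc0))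
      refine h0 (h2.subset ?_)
      intro g hg
      refine ⟨mem_univ g, ?_⟩
      intro h3
      exact h3 hg

end Pool.Agent.Results.MP_b2dc7d_gt.PseudoboundedNotConstant
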